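import Mathlib
import Pool.Agent.X87.MetricMeanDim

set_option autoImplicit false

namespace Pool.Agent.Results.MP_d02d3c_an.AllExponents

open Pool.Agent.X87.MetricMeanDim

/-- If `φ : [0,1] → [0,1]` is `α`-Hölder for every `α ∈ (0,1)`, its upper metric mean dimension is `0`. -/
theorem result : ∀ φ : Set.Icc (0 : ℝ) 1 → Set.Icc (0 : ℝ) 1,
    (∀ α : ℝ, 0 < α → α < 1 → IsHolder φ α) → upperMDim φ = 0 := by
  intro φ hφ
  refine le_antisymm ?_ (zero_le_upperMDim φ)
  refine EReal.le_of_forall_lt_iff_le.1 ?_
  intro z hz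
  have hz' : 0 < z := by exact_mod_cast hz
  by_cases h1 : z < 1
  · have := upperMDim_le φ (1 - z) (by linarith) (by linarith) (hφ _ (by linarith) (by linarith))
    simpa using this
  · have := upperMDim_le φ (1 / 2) (by norm_num) (by norm_num) (hφ _ (by norm_num) (by norm_num))
    refine this.trans ?_
    rw [EReal.coe_le_coe_iff]
    linarith

end Pool.Agent.Results.MP_d02d3c_an.AllExponents
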